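import Pool.Agent.H51.MFQ.S1

set_option autoImplicit false

open Module

namespace Pool.MFQ

open MvPolynomial in
/-- EVI -/
theorem t_EVI : EVIStmt := by
  intro 𝔤 _ _ σ τ J _ _ b P Q h
  have key : ∀ (y : σ → ℂ) (z : τ → ℂ),
      eval z (map (eval y) (aeval (fun j => toP (P j)) Q)) = 0 := by
    intro y z
    let ξ : Dual ℂ 𝔤 := b.constr ℂ (Sum.elim y z)
    have hξl : ∀ l, ξ (b (Sum.inl l)) = y l := fun l =>
      b.constr_basis ℂ (Sum.elim y z) (Sum.inl l)
    have hξr : ∀ i, ξ (b (Sum.inr i)) = z i := fun i =>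
      b.constr_basis ℂ (Sum.elim y z) (Sum.inr i)
    let φ : MvPolynomial τ (MvPolynomial σ ℂ) →+* ℂ := (eval z).comp (map (eval y))
    let ψ : (Dual ℂ 𝔤 → ℂ) →+* ℂ := Pi.evalRingHom (fun _ : Dual ℂ 𝔤 => ℂ) ξ
    have h1 : φ (aeval (fun j => toP (P j)) Q) =
        eval₂Hom (φ.comp (algebraMap ℂ _)) (fun j => φ (toP (P j))) Q := map_aeval _ φ Q
    have h2 : ψ (aeval (fun j => evL b (P j)) Q) =
        eval₂Hom (ψ.comp (algebraMap ℂ _)) (fun j => ψ (evL b (P j))) Q := map_aeval _ ψ Q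
    have e1 : φ.comp (algebraMap ℂ (MvPolynomial τ (MvPolynomial σ ℂ))) = RingHom.id ℂ := by
      ext c
      simp only [φ, RingHom.comp_apply, RingHom.id_apply]
      have : (algebraMap ℂ (MvPolynomial τ (MvPolynomial σ ℂ))) c = C (C c) := rfl
      rw [this, map_C, eval_C, eval_C]
    have e2 : ψ.comp (algebraMap ℂ (Dual ℂ 𝔤 → ℂ)) = RingHom.id ℂ := by
      ext c
      simp [ψ]
    have e3 : ∀ j, φ (toP (P j)) = ψ (evL b (P j)) := by
      intro j
      simp only [φ, ψ, RingHom.comp_apply, toP, Pi.evalRingHom_apply, evL, map_add, map_sum,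
        map_mul, map_C, map_X, eval_C, eval_X, hξl, hξr]
    rw [e1] at h1
    rw [e2] at h2
    have e4 : (fun j => φ (toP (P j))) = fun j => ψ (evL b (P j)) := funext e3
    rw [e4, ← h2, h, map_zero] at h1
    exact h1
  ext m n
  have h1 : ∀ y : σ → ℂ, map (eval y) (aeval (fun j => toP (P j)) Q) = 0 := by
    intro y
    apply MvPolynomial.funext
    intro z
    rw [key, map_zero]
  have h2 : coeff m (aeval (fun j => toP (P j)) Q) = 0 := by
    apply MvPolynomial.funext
    intro y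
    have := congrArg (coeff m) (h1 y)
    rw [coeff_map, coeff_zero] at this
    rw [this, map_zero]
  rw [h2]
  simp

end Pool.MFQ
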