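import Pool.Agent.H51.MFQ.S1

set_option autoImplicit false

open Module

namespace Pool.MFQ

/-- LOC -/
theorem t_LOC : LOCStmt := by
  intro E E' _ _ _ _ _ _ f a hf hb
  have : CompleteSpace E := FiniteDimensional.complete ℂ E
  let i : E ≃L[ℂ] E' :=
    (LinearEquiv.ofBijective ((fderiv ℂ f a : E →L[ℂ] E') : E →ₗ[ℂ] E') hb).toContinuousLinearEquiv
  have hi : (i : E →L[ℂ] E') = fderiv ℂ f a := by
    ext x
    rfl
  have hfd' : HasFDerivAt f (i : E →L[ℂ] E') a := by
    rw [hi]
    exact hf.differentiableAt.hasFDerivAt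
  have hfd : HasStrictFDerivAt f (i : E →L[ℂ] E') a := by
    rw [hi]
    exact hf.hasStrictFDerivAt
  have hc : ContDiffAt ℂ (⊤ : WithTop ℕ∞) f a := hf.contDiffAt
  have hne : (⊤ : WithTop ℕ∞) ≠ 0 := by simp
  refine ⟨hfd.localInverse f i a, ?_, hfd.localInverse_apply_image, ?_, ?_⟩
  · have h1 := hc.to_localInverse hfd' hne
    exact h1.analyticAt
  · exact hfd.eventually_left_inverse
  · exact hfd.eventually_right_inverse

end Pool.MFQ
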