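import Pool.Agent.H51.MFQ.S1

set_option autoImplicit false

open Module

namespace Pool.MFQ

namespace H79TRK

theorem surj_of_indep {T : Type} [AddCommGroup T] [Module ℂ T] {q : ℕ} (φ : Fin q → (T →ₗ[ℂ] ℂ))
    (h : LinearIndependent ℂ φ) : Function.Surjective (LinearMap.pi φ : T →ₗ[ℂ] (Fin q → ℂ)) := by
  rw [← LinearMap.range_eq_top]
  by_contra hne
  obtain ⟨f, hf0, hf⟩ := Submodule.exists_le_ker_of_lt_top _ (lt_top_iff_ne_top.2 hne)
  apply hf0
  rw [Fintype.linearIndependent_iff] at h
  have h1 : ∑ j, f (Pi.single j 1) • φ j = 0 := by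
    ext t
    have h2 : f (LinearMap.pi φ t) = 0 := hf (LinearMap.mem_range_self _ t)
    rw [LinearMap.sum_apply, LinearMap.zero_apply, ← h2]
    have h3 : LinearMap.pi φ t = ∑ j, (φ j t) • (Pi.single j (1 : ℂ) : Fin q → ℂ) := by
      ext j
      simp [Finset.sum_apply, Pi.single_apply]
    rw [h3, map_sum]
    refine Finset.sum_congr rfl fun j _ => ?_
    rw [map_smul, LinearMap.smul_apply, smul_eq_mul, smul_eq_mul, mul_comm]
  have h4 := h _ h1
  apply LinearMap.pi_ext'
  intro j
  ext
  simp [h4 j]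

end H79TRK

open H79TRK in
/-- TRK -/
theorem t_TRK (hL : LOCStmt) : TRKStmt := by
  intro E _ _ _ a q T G hG hI
  -- the projection
  obtain ⟨g0, hg0⟩ := LinearMap.exists_leftInverse_of_injective T.subtype
    (LinearMap.ker_eq_bot.2 T.injective_subtype)
  have hg1 : ∀ t : T, g0 (t : E) = t := fun t => LinearMap.congr_fun hg0 t
  let P0 : E →ₗ[ℂ] E := LinearMap.id - T.subtype ∘ₗ g0
  let P : E →L[ℂ] E := LinearMap.toContinuousLinearMap P0
  have hP : ∀ x, P x = x - (g0 x : E) := fun x => rfl
  have hPT : ∀ η ∈ T, P η = 0 := by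
    intro η hη
    rw [hP]
    have := hg1 ⟨η, hη⟩
    simp only at this
    rw [this]
    simp
  have hPP : ∀ x, P (P x) = P x := by
    intro x
    have h1 : P x = x - (g0 x : E) := hP x
    have h2 : P (x - (g0 x : E)) = P x - P (g0 x : E) := map_sub _ _ _
    rw [hPT _ (g0 x).2, sub_zero] at h2
    rw [← h1] at h2
    exact h2
  have hPs : ∀ x, P x - x ∈ T := by
    intro x
    rw [hP]
    have : x - (g0 x : E) - x = -(g0 x : E) := by abel
    rw [this]
    exact T.neg_mem (g0 x).2
  -- the section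
  obtain ⟨s0, hs0⟩ := LinearMap.exists_rightInverse_of_surjective _
    (LinearMap.range_eq_top.2 (surj_of_indep _ hI))
  let σ : (Fin q → ℂ) →L[ℂ] E := LinearMap.toContinuousLinearMap (T.subtype ∘ₗ s0)
  have hσT : ∀ z, σ z ∈ T := fun z => (s0 z).2
  have hσ : ∀ z j, fderiv ℂ (G j) a (σ z) = z j := by
    intro z j
    have h1 := LinearMap.congr_fun hs0 z
    have h2 := congrFun h1 j
    exact h2
  -- the map
  let inn : E × (Fin q → ℂ) → E := fun w => P w.1 + (a - P a) + σ w.2
  let L : E × (Fin q → ℂ) →L[ℂ] E :=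
    P.comp (ContinuousLinearMap.fst ℂ E (Fin q → ℂ)) +
      σ.comp (ContinuousLinearMap.snd ℂ E (Fin q → ℂ))
  have hinn : ∀ w, inn w = L w + (a - P a) := by
    intro w
    simp only [inn, L, add_apply, ContinuousLinearMap.comp_apply,
      ContinuousLinearMap.coe_fst', ContinuousLinearMap.coe_snd']
    abel
  have hinna : inn (a, 0) = a := by
    simp only [inn, map_zero]
    abel
  have hinnA : ∀ w, AnalyticAt ℂ inn w := by
    intro w
    have : inn = fun w => L w + (a - P a) := funext hinn
    rw [this]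
    exact (L.analyticAt w).add analyticAt_const
  have hinnD : ∀ w, HasFDerivAt inn L w := by
    intro w
    have : inn = fun w => L w + (a - P a) := funext hinn
    rw [this]
    exact L.hasFDerivAt.add_const _
  let Φ : E × (Fin q → ℂ) → E × (Fin q → ℂ) := fun w => (w.1, fun j => G j (inn w))
  have hΦA : AnalyticAt ℂ Φ (a, 0) := by
    refine AnalyticAt.prod analyticAt_fst ?_
    refine analyticAt_pi_iff.2 ?_
    intro j
    have h1 : AnalyticAt ℂ (G j) (inn (a, 0)) := by
      rw [hinna]
      exact hG j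
    exact h1.comp (hinnA _)
  have hΦD : HasFDerivAt Φ ((ContinuousLinearMap.fst ℂ E (Fin q → ℂ)).prod
      (ContinuousLinearMap.pi fun j => (fderiv ℂ (G j) a).comp L)) (a, 0) := by
    refine HasFDerivAt.prodMk hasFDerivAt_fst ?_
    rw [hasFDerivAt_pi]
    intro j
    have h1 : HasFDerivAt (G j) (fderiv ℂ (G j) a) (inn (a, 0)) := by
      rw [hinna]
      exact (hG j).differentiableAt.hasFDerivAt
    exact h1.comp (a, 0) (hinnD _)
  have hbij : Function.Bijective (fderiv ℂ Φ (a, 0)) := by
    rw [hΦD.fderiv]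
    have hval : ∀ w : E × (Fin q → ℂ), ((ContinuousLinearMap.fst ℂ E (Fin q → ℂ)).prod
        (ContinuousLinearMap.pi fun j => (fderiv ℂ (G j) a).comp L)) w =
        (w.1, fun j => fderiv ℂ (G j) a (P w.1) + w.2 j) := by
      intro w
      refine Prod.ext rfl ?_
      ext j
      show fderiv ℂ (G j) a (P w.1 + σ w.2) = _
      rw [map_add, hσ]
    constructor
    · intro w w' hww
      rw [hval, hval] at hww
      have h1 := congrArg Prod.fst hww
      have h2 := congrArg Prod.snd hww
      simp only at h1 h2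
      refine Prod.ext h1 ?_
      ext j
      have h3 := congrFun h2 j
      simp only [h1] at h3
      exact add_left_cancel h3
    · intro w
      refine ⟨(w.1, fun j => w.2 j - fderiv ℂ (G j) a (P w.1)), ?_⟩
      rw [hval]
      refine Prod.ext rfl ?_
      ext j
      simp only
      ring
  obtain ⟨g, hgA, hga, -, hgr⟩ := hL _ _ Φ (a, 0) hΦA hbij
  have hΦa : Φ (a, 0) = (a, fun j => G j a) := by
    simp only [Φ, hinna]
  rw [hΦa] at hgA hga hgr
  let Y : E → E × (Fin q → ℂ) := fun ξ => (P ξ + (a - P a), fun j => G j a)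
  have hYa : Y a = (a, fun j => G j a) := by
    simp only [Y]
    congr 1
    abel
  have hYA : AnalyticAt ℂ Y a := by
    refine AnalyticAt.prod ?_ analyticAt_const
    exact (P.analyticAt a).add analyticAt_const
  have hYt : Filter.Tendsto Y (nhds a) (nhds (a, fun j => G j a)) := by
    have := hYA.continuousAt.tendsto
    rw [hYa] at this
    exact this
  have hgY : AnalyticAt ℂ (fun ξ => g (Y ξ)) a := by
    have h1 : AnalyticAt ℂ g (Y a) := by
      rw [hYa]
      exact hgA
    exact h1.comp hYA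
  refine ⟨fun ξ => P ξ + (a - P a) + σ (g (Y ξ)).2, ?_, ?_, ?_, ?_, ?_⟩
  · refine ((P.analyticAt a).add analyticAt_const).add ?_
    have h2 : AnalyticAt ℂ (fun ξ => (g (Y ξ)).2) a :=
      AnalyticAt.comp (g := Prod.snd) (f := fun ξ => g (Y ξ)) analyticAt_snd hgY
    exact (σ.analyticAt _).comp h2
  · simp only
    rw [hYa, hga]
    simp only [map_zero]
    abel
  · intro ξ η hη
    have h1 : P (ξ + η) = P ξ := by rw [map_add, hPT η hη, add_zero]
    simp only [Y, h1]
  · intro ξ
    have h1 : P ξ + (a - P a) + σ (g (Y ξ)).2 - ξ =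
        (P ξ - ξ) + (σ (g (Y ξ)).2 - (P a - a)) := by abel
    rw [h1]
    exact T.add_mem (hPs ξ) (T.sub_mem (hσT _) (hPs a))
  · filter_upwards [hYt.eventually hgr] with ξ hξ j
    have h1 := congrArg Prod.fst hξ
    have h2 := congrArg Prod.snd hξ
    simp only [Φ, Y] at h1 h2
    have h3 := congrFun h2 j
    simp only [inn, h1] at h3
    have h4 : P (P ξ + (a - P a)) = P ξ := by
      rw [map_add, map_sub, hPP, hPP]
      abel
    simp only [Y]
    rw [h4] at h3
    exact h3

end Pool.MFQ
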