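import Pool.Agent.H51.MFQ.S1

set_option autoImplicit false

open Module

namespace Pool.MFQ

/-- VRK -/
theorem t_VRK : VRKStmt := by
  intro 𝔤 _ _ _ V ξ W hW
  let VS : Submodule ℂ 𝔤 := V.toSubmodule
  let B : 𝔤 →ₗ[ℂ] VS →ₗ[ℂ] ℂ := LinearMap.mk₂ ℂ (fun (y : 𝔤) (v : VS) => ξ ⁅y, (v : 𝔤)⁆)
    (by intro y y' v; rw [add_lie, map_add])
    (by intro c y v; rw [smul_lie, map_smul])
    (by intro y v v'; rw [Submodule.coe_add, lie_add, map_add])
    (by intro c y v; rw [Submodule.coe_smul, lie_smul, map_smul])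
  have hB : ∀ y v, B y v = ξ ⁅y, (v : 𝔤)⁆ := fun y v => rfl
  have hker : LinearMap.ker B = W := by
    ext y
    rw [LinearMap.mem_ker, hW]
    constructor
    · intro h v hv
      exact LinearMap.congr_fun h ⟨v, hv⟩
    · intro h
      ext v
      exact h v v.2
  have hr1 : finrank ℂ (LinearMap.range B) + finrank ℂ W = finrank ℂ 𝔤 := by
    rw [← hker]
    exact B.finrank_range_add_finrank_ker
  have hr2 : finrank ℂ (LinearMap.range B.flip) + finrank ℂ (LinearMap.ker B.flip) =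
      finrank ℂ VS := B.flip.finrank_range_add_finrank_ker
  have hflip : B.flip = (B.dualMap : Dual ℂ (Dual ℂ VS) →ₗ[ℂ] Dual ℂ 𝔤) ∘ₗ
      (Module.evalEquiv ℂ VS : VS →ₗ[ℂ] Dual ℂ (Dual ℂ VS)) := by
    ext v y
    rfl
  have hr3 : finrank ℂ (LinearMap.range B.flip) = finrank ℂ (LinearMap.range B) := by
    rw [hflip, LinearMap.range_comp_of_range_eq_top _ (LinearEquiv.range _)]
    exact LinearMap.finrank_range_dualMap_eq_finrank_range B
  have hk2 : (LinearMap.ker B.flip).map VS.subtype = stab ξ ⊓ V.toSubmodule := by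
    ext x
    rw [Submodule.mem_map, Submodule.mem_inf]
    constructor
    · rintro ⟨v, hv, rfl⟩
      refine ⟨?_, v.2⟩
      intro y
      have h1 : B y v = 0 := LinearMap.congr_fun (LinearMap.mem_ker.1 hv) y
      rw [hB] at h1
      rw [← lie_skew, map_neg]
      simp only [Submodule.subtype_apply]
      rw [h1, neg_zero]
    · rintro ⟨h1, h2⟩
      refine ⟨⟨x, h2⟩, ?_, rfl⟩
      rw [LinearMap.mem_ker]
      ext y
      show ξ ⁅y, x⁆ = 0
      rw [← lie_skew, map_neg, h1 y, neg_zero]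
  have hk3 : finrank ℂ (LinearMap.ker B.flip) =
      finrank ℂ (stab ξ ⊓ V.toSubmodule : Submodule ℂ 𝔤) := by
    rw [← hk2]
    exact (Submodule.finrank_map_subtype_eq VS _).symm
  rw [hr3, hk3] at hr2
  have : finrank ℂ VS = finrank ℂ V.toSubmodule := rfl
  omega

end Pool.MFQ
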